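import Pool.Agent.FS.Main

set_option autoImplicit false

namespace Pool.Agent.Results.MP_b0bf68_gt.FlatSymplectic

open MeasureTheory Set Pool.Agent.H68.VD TN FS
open scoped ENNReal

/-- The right-invariant Sobolev metrics on the symplectic diffeomorphisms of the closed flat symplectic
manifolds `M = Eu (n + n) / P` (dimension `2n`, `n ≥ 1`; for `n = 1` the torus `T²` with its area
preserving diffeomorphisms).

`SpDeck P`: the deck group `P` is a set of affine maps of `Eu (n + n)` which preserve the standard
symplectic form `om`, acts freely and contains the integer lattice with finite index. A symplectic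
diffeomorphism of `M` in the identity component is represented by a lift (`SGP P`), `sdistP N P` is the
geodesic distance for the norm `N` on velocity fields (right-invariant metric), `sdiamP N P` the diameter
of the identity component. `N s` is the `H^s` norm (`p = 2`) or, for one `p > 1`, the `W^{s,p}` norm
(Sobolev-Slobodeckij, dual norm for `s < 0`).

Part 1, for every `n` and every `P`: for all `s < 0` with `s ≤ -1 + n / p` the distance is the distance
of the flux classes, so that the diameter is finite and is zero exactly if no translation but `0` commutes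
with `P` (first Betti number zero); for all other `s` the distance is non-degenerate; the diameter is
infinite for `s ≥ 0`, and for `s > -1 + n / p` if some momentum coordinate is preserved by `P` up to sign
and translation (`Split`); there is no transition zero, finite positive, infinite if the first Betti
number is positive, or `P` is split, or `p ≤ n`.
Part 2: the tori are split and have all translations.
Part 3: in dimension six some `M` is split and has first Betti number zero: the diameter is zero for
`s < 0`, `s ≤ -1 + 3 / p` and infinite for all other `s`. -/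
theorem result :
    (∀ n : ℕ, 0 < n → ∀ P : Set (Eu (n + n) → Eu (n + n)), SpDeck P →
      ∀ (p : ℝ) (N : ℝ → (Eu (n + n) → Eu (n + n)) → ℝ≥0∞),
        (p = 2 ∧ N = fun s => hsNorm s) ∨ (1 < p ∧ N = fun s => wspP s p) →
        (∀ s, s < 0 → s ≤ -1 + n / p → SpFlux (N s) P ∧ sdiamP (N s) P < ⊤ ∧
          (sdiamP (N s) P = 0 ↔ ∀ m, FInv P m → m = 0)) ∧
        (∀ s, (0 ≤ s ∨ -1 + n / p < s) → ∀ f g, SGP P f → SGP P g →
          (sdistP (N s) P f g = 0 ↔ ∃ γ ∈ P, g = γ ∘ f)) ∧
        (∀ s, (0 ≤ s ∨ (Split P ∧ -1 + n / p < s)) → sdiamP (N s) P = ⊤) ∧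
        (((∃ m, FInv P m ∧ m ≠ 0) ∨ Split P ∨ p ≤ n) →
          ¬ Transition (fun s => sdiamP (N s) P))) ∧
    (∀ n : ℕ, 0 < n → SpDeck (lat (n + n)) ∧ Split (lat (n + n)) ∧
      ∀ m : Eu (n + n), FInv (lat (n + n)) m) ∧
    ∃ P : Set (Eu (3 + 3) → Eu (3 + 3)), SpDeck P ∧ Split P ∧ (∀ m, FInv P m → m = 0) ∧
      ∀ (p : ℝ) (N : ℝ → (Eu (3 + 3) → Eu (3 + 3)) → ℝ≥0∞),
        (p = 2 ∧ N = fun s => hsNorm s) ∨ (1 < p ∧ N = fun s => wspP s p) →
        (∀ s, s < 0 → s ≤ -1 + 3 / p → sdiamP (N s) P = 0) ∧
        ∀ s, (0 ≤ s ∨ -1 + 3 / p < s) → sdiamP (N s) P = ⊤ :=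
  FS.main

end Pool.Agent.Results.MP_b0bf68_gt.FlatSymplectic
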