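import Pool.Agent.H6.ST.All

set_option autoImplicit false

namespace Pool.Agent.Results.MP_b0bf68_gt.SharpTrichotomy

open Pool.Agent.H68.VD Pool.Agent.H68.GM Pool.Agent.H6.STS
open scoped ENNReal

/-- There is a closed connected four dimensional manifold `M` with a volume form such that the diameter
of the identity component of the group of volume preserving diffeomorphisms of `M`, for the
right-invariant geodesic distance of the `W^{s,1}` norm on vector fields, is zero for every `s < 0`,
positive and finite for every `0 ≤ s < 1`, and infinite for every `s ≥ 1`.

`ClosedVol M ch` says that `M` is compact, connected, Hausdorff and `ch` is a finite atlas of `M` with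
smooth transition maps of Jacobian determinant one (coordinates in which the volume form is the
standard one), `PartUnity` that `χ` is a partition of unity subordinate to the charts, `w1M χ s` is the
`W^{s,1}` norm of vector fields defined with it, `gdiam ch N` the supremum of the geodesic distances of
the norm `N` between the end points of smooth paths of volume preserving diffeomorphisms that start at
the identity. -/
theorem result : ∃ (M : Type) (_ : TopologicalSpace M) (_ : Nonempty M) (ι : Type) (_ : Fintype ι)
    (ch : ι → OpenPartialHomeomorph M (Eu 4)), ClosedVol M ch ∧ (∃ χ, PartUnity ch χ) ∧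
    ∀ χ, PartUnity ch χ → ∀ s : ℝ,
      (s < 0 → gdiam ch (w1M χ s) = 0) ∧
      (0 ≤ s → s < 1 → 0 < gdiam ch (w1M χ s) ∧ gdiam ch (w1M χ s) < ⊤) ∧
      (1 ≤ s → gdiam ch (w1M χ s) = ⊤) :=
  Pool.Agent.H6.ST.sharp_all

end Pool.Agent.Results.MP_b0bf68_gt.SharpTrichotomy
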