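import Pool.Agent.H6.SV.All

set_option autoImplicit false

namespace Pool.Agent.Results.MP_b0bf68_gt.SymplecticVanish

open Pool.Agent.H68.VD Pool.Agent.H68.GM SV

/-- On every closed connected symplectic manifold `M` of dimension `2n` the right-invariant `W^{s,p}`
geodesic distance on the group of symplectic diffeomorphisms vanishes on paths with Hamiltonian velocity
fields for every `p > 1` and every `s < 0` with `s < -1 + n/p`.

`SympAtlas ch` says that `ch` is a finite atlas of `M` whose transition maps are smooth and preserve the
standard symplectic form `om` (coordinates of Darboux), `PartUnity` that `χ` is a partition of unity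
subordinate to the charts, `wMan χ s p` is the `W^{s,p}` norm of vector fields defined with it,
`mvel ch φ t` the velocity field of the path `φ` at time `t`, `spdist` the geodesic distance, `SG ch f`
says that `f` is in the identity component of the group. `IsHam ch X`: `X` is the Hamiltonian vector
field of a smooth function on `M`; `SympFld ch X`: `X` is a smooth symplectic vector field.

1. The endpoints of every path whose velocities are Hamiltonian have distance zero.
2. If every smooth symplectic vector field is Hamiltonian (that is, the first Betti number of `M` is
zero), then the distance of any two elements is zero: the diameter is zero. -/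
theorem result (n : ℕ) (hn : 1 ≤ n) (M : Type) [TopologicalSpace M] [T2Space M] [CompactSpace M]
    [ConnectedSpace M] (ι : Type) [Fintype ι] (ch : ι → OpenPartialHomeomorph M (Eu (n + n)))
    (hS : SympAtlas ch) (χ : ι → Eu (n + n) → ℝ) (hχ : PartUnity ch χ) (s p : ℝ) (hp : 1 < p)
    (hs : s < 0) (hs' : s < -1 + n / p) :
    (∀ φ, SPath ch φ → (∀ t, IsHam ch (mvel ch φ t)) →
      spdist ch (wMan χ s p) (φ 0) (φ 1) = 0) ∧
    ((∀ X, SympFld ch X → IsHam ch X) →
      ∀ f g, SG ch f → SG ch g → spdist ch (wMan χ s p) f g = 0) :=
  svanish n hn M ι ch hS χ hχ s p hp hs hs'

end Pool.Agent.Results.MP_b0bf68_gt.SymplecticVanish
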