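import Pool.Agent.H68.GM.Tr

set_option autoImplicit false

namespace Pool.Agent.Results.MP_b0bf68_gt.VanishNegative

open Pool.Agent.H68.VD Pool.Agent.H68.GM

/-- On every closed manifold `M` of dimension at least three with a volume form, the right-invariant
`W^{s,p}` geodesic distance on the group of volumorphisms vanishes on the zero flux part for every
`s < 0` and every `p > 1`.

`VolAtlas ch` says that `ch` is a finite atlas of `M` with smooth transition maps of Jacobian
determinant plus or minus one (coordinates in which the volume form is the standard one), `PartUnity`
that `χ` is a partition of unity subordinate to the charts, `wMan χ s p` is the `W^{s,p}` norm of vector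
fields defined with it, `mvel ch φ t` the velocity field of the path `φ` at time `t`, `sdist` the
geodesic distance, `MG ch f` says that `f` is in the identity component of the group. `Exact ch X` says
that the contraction of `X` with the volume form is exact.

1. The endpoints of every path whose velocities are exact have distance zero.
2. If every smooth divergence free field is exact (that is, the first Betti number of `M` is zero),
then the distance of any two elements is zero: the diameter is zero for every `s < 0`. -/
theorem result (n : ℕ) (hn : 3 ≤ n) (M : Type) [TopologicalSpace M] [T2Space M] [CompactSpace M]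
    [Nonempty M] (ι : Type) [Fintype ι] (ch : ι → OpenPartialHomeomorph M (Eu n))
    (hV : VolAtlas ch) (χ : ι → Eu n → ℝ) (hχ : PartUnity ch χ) (s p : ℝ) (hs : s < 0)
    (hp : 1 < p) :
    (∀ φ, MPath ch φ → (∀ t, Exact ch (mvel ch φ t)) → sdist ch (wMan χ s p) (φ 0) (φ 1) = 0) ∧
    ((∀ X, DivFree ch X → Exact ch X) →
      ∀ f g, MG ch f → MG ch g → sdist ch (wMan χ s p) f g = 0) :=
  vanishS n hn M ι ch hV χ hχ s p hs hp

end Pool.Agent.Results.MP_b0bf68_gt.VanishNegative
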